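import Pool.Agent.CYE.StmtsF

set_option autoImplicit false

open Polynomial IsLocalRing

namespace Pool.Agent.CYE.H20

open Pool.Agent.CYE

private theorem num1 (n : ℕ) : 48 * 9 ^ (2 ^ n) * n + 1 ≤ 2 ^ (5 * 2 ^ (n + 1)) := by
  have e1 : 2 ^ (5 * 2 ^ (n + 1)) = 16 ^ (2 ^ n) * 64 ^ (2 ^ n) := by
    rw [← mul_pow, show (16 * 64 : ℕ) = 2 ^ 10 by norm_num, ← pow_mul]
    congr 1
    rw [pow_succ]; ring
  have e2 : n + 1 ≤ 2 ^ n := Nat.lt_two_pow_self
  have e3 : 64 ^ (n + 1) ≤ 64 ^ (2 ^ n) := Nat.pow_le_pow_right (by norm_num) e2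
  have e4 : n < 64 ^ n := Nat.lt_pow_self (by norm_num)
  have e5 : 48 * n + 1 ≤ 64 ^ (2 ^ n) := by
    refine le_trans ?_ e3
    rw [pow_succ]
    omega
  have e6 : 9 ^ (2 ^ n) ≤ 16 ^ (2 ^ n) := Nat.pow_le_pow_left (by norm_num) _
  have e7 : 1 ≤ 9 ^ (2 ^ n) := Nat.one_le_pow _ _ (by norm_num)
  rw [e1]
  calc 48 * 9 ^ (2 ^ n) * n + 1 ≤ 48 * 9 ^ (2 ^ n) * n + 9 ^ (2 ^ n) := by omega
    _ = 9 ^ (2 ^ n) * (48 * n + 1) := by ring
    _ ≤ 16 ^ (2 ^ n) * 64 ^ (2 ^ n) := Nat.mul_le_mul e6 e5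

private theorem sumb {ι : Type} (q : ι → ℕ) (lg : List ι) (k : ℕ) (hk : lg.length + 1 ≤ k)
    (hlg : ∀ i ∈ lg, 2 ^ (5 * 2 ^ k) ≤ q i) :
    0 ≤ (lg.map fun i => (1 : ℝ) / (q i - 1)).sum ∧
    4 * (lg.map fun i => (1 : ℝ) / (q i - 1)).sum ≤ 1 ∧
    8 * (6 * 9 ^ (2 ^ lg.length) * (lg.map fun i => (1 : ℝ) / (q i - 1)).sum) ≤ 1 := by
  obtain ⟨n, rfl⟩ : ∃ n, k = n + 1 := ⟨k - 1, by omega⟩
  have hn := num1 n
  have hQ : (48 : ℝ) * 9 ^ (2 ^ n) * n + 1 ≤ 2 ^ (5 * 2 ^ (n + 1)) := by exact_mod_cast hn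
  have h9 : (1 : ℝ) ≤ 9 ^ (2 ^ n) := one_le_pow₀ (by norm_num)
  have hQ2 : (2 : ℝ) ≤ 2 ^ (5 * 2 ^ (n + 1)) := by
    calc (2 : ℝ) = 2 ^ 1 := by norm_num
      _ ≤ 2 ^ (5 * 2 ^ (n + 1)) := pow_le_pow_right₀ (by norm_num) (by
        have : 0 < 2 ^ (n + 1) := by positivity
        omega)
  obtain ⟨Q, hQd⟩ : ∃ Q : ℝ, Q = 2 ^ (5 * 2 ^ (n + 1)) := ⟨_, rfl⟩
  rw [← hQd] at hQ hQ2
  have hq : ∀ i ∈ lg, Q ≤ (q i : ℝ) := fun i hi => by
    rw [hQd]; exact_mod_cast hlg i hi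
  have hs0 : 0 ≤ (lg.map fun i => (1 : ℝ) / (q i - 1)).sum := by
    apply List.sum_nonneg
    intro x hx
    obtain ⟨i, hi, rfl⟩ := List.mem_map.mp hx
    have := hq i hi
    exact div_nonneg (by norm_num) (by linarith)
  have hs1 : (lg.map fun i => (1 : ℝ) / (q i - 1)).sum ≤ n * (1 / (Q - 1)) := by
    have h1 := List.sum_le_card_nsmul (lg.map fun i => (1 : ℝ) / (q i - 1)) (1 / (Q - 1)) (by
      intro x hx
      obtain ⟨i, hi, rfl⟩ := List.mem_map.mp hx
      have := hq i hi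
      exact one_div_le_one_div_of_le (by linarith) (by linarith))
    rw [List.length_map, nsmul_eq_mul] at h1
    refine h1.trans (mul_le_mul_of_nonneg_right ?_ (div_nonneg (by norm_num) (by linarith)))
    exact_mod_cast (by omega : lg.length ≤ n)
  have hs2 : 48 * 9 ^ (2 ^ n) * (lg.map fun i => (1 : ℝ) / (q i - 1)).sum ≤ 1 := by
    have hpos : 0 < Q - 1 := by linarith
    calc 48 * 9 ^ (2 ^ n) * (lg.map fun i => (1 : ℝ) / (q i - 1)).sum
        ≤ 48 * 9 ^ (2 ^ n) * (n * (1 / (Q - 1))) :=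
          mul_le_mul_of_nonneg_left hs1 (by positivity)
      _ = (48 * 9 ^ (2 ^ n) * n) / (Q - 1) := by ring
      _ ≤ 1 := by rw [div_le_one hpos]; linarith
  refine ⟨hs0, ?_, ?_⟩
  · refine le_trans ?_ hs2
    apply mul_le_mul_of_nonneg_right _ hs0
    linarith
  · refine le_trans ?_ hs2
    have h9' : (9 : ℝ) ^ (2 ^ lg.length) ≤ 9 ^ (2 ^ n) :=
      pow_le_pow_right₀ (by norm_num) (Nat.pow_le_pow_right (by norm_num) (by omega))
    calc 8 * (6 * 9 ^ (2 ^ lg.length) * (lg.map fun i => (1 : ℝ) / (q i - 1)).sum)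
        = 48 * 9 ^ (2 ^ lg.length) * (lg.map fun i => (1 : ℝ) / (q i - 1)).sum := by ring
      _ ≤ _ := by
        apply mul_le_mul_of_nonneg_right _ hs0
        linarith

theorem tyc (_hBAF : BafStmt) (hFXN : FxnStmt) (hPEI : PeiStmt) (hGEN : GenStmt) (hDIF : DifStmt)
    (hCNT : CntStmt) (hUNC : UncStmt) : TycStmt := by
  classical
  intro ι _ _ q _ p m k J g h K _ _ _ A z α hpA hz hS sm lg hnd hall hk hsm hlg hp hJ hMT hpp
  have hndl : lg.Nodup := (List.nodup_append.mp hnd).2.1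
  have hdisj : ∀ i ∈ sm, i ∉ lg := fun i hi hi' => (List.nodup_append.mp hnd).2.2 i hi i hi' rfl
  have hlen : sm.length + lg.length + 1 = k := by rw [hk, List.length_append]
  have hq3 : ∀ i, 3 ≤ q i := by
    intro i
    have h1 : q i ∣ m := hS.prod ▸ Finset.dvd_prod_of_mem q (Finset.mem_univ i)
    have h2 : Odd (q i) := Odd.of_dvd_nat hS.F.odd h1
    have h3 := (hS.hq i).two_le
    rcases h2 with ⟨c, hc⟩
    omega
  obtain ⟨hU, hUne, hSne, hu1, hu2⟩ := hUNC ι q hS.inj hq3 lg hndl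
  rw [hS.prod] at hU
  obtain ⟨hσ0, hσ1, hσ2⟩ := sumb q lg k (by omega) hlg
  obtain ⟨B, C, hB, hC, hBC⟩ := hPEI ι q p m g h (ResidueField A) (residue A z) α hS sm lg hnd J hMT
  have hp0 : 0 < p := lt_of_lt_of_le (by positivity) hp
  -- the number of elements of `B`
  have hB1 : ∀ w ∈ B, w.2 ∈ Sv q lg := by
    intro w hw
    obtain ⟨⟨h1, h2, h3⟩, -⟩ := (hB w).mp hw
    refine Finset.mem_filter.mpr ⟨Finset.mem_univ _, fun i => ⟨fun hi => (h3 i hi).1, fun hi => ?_⟩⟩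
    rcases List.mem_append.mp (hall i) with h4 | h4
    · exact h2 i h4
    · exact absurd h4 hi
  have hB2 : p * B.card ≤ (Sv q lg).card * (2 ^ (10 * k * 2 ^ k) * m.totient) := by
    rw [Finset.card_eq_sum_card_fiberwise hB1, Finset.mul_sum, ← smul_eq_mul]
    apply Finset.sum_le_card_nsmul
    intro s hs
    have hinj : Set.InjOn Prod.fst (↑(B.filter fun w => w.2 = s) : Set (Pt q × Pt q)) := by
      intro w hw w' hw' he
      have h1 := (Finset.mem_filter.mp (Finset.mem_coe.mp hw)).2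
      have h2 := (Finset.mem_filter.mp (Finset.mem_coe.mp hw')).2
      exact Prod.ext he (h1.trans h2.symm)
    rw [← Finset.card_image_of_injOn hinj]
    refine hFXN ι q p m k g h K A z α hpA hz hS sm lg hnd hall hk hsm hp s _ ?_
    intro b hb
    obtain ⟨w, hw, rfl⟩ := Finset.mem_image.mp hb
    obtain ⟨hw1, hw2⟩ := Finset.mem_filter.mp hw
    subst hw2
    exact (hB w).mp hw1
  -- the bad pairs
  obtain ⟨Bd, hBd⟩ : ∃ Bd : Finset (Pt q × Pt q), Bd = C ∪ C.image (fun w => -w) := ⟨_, rfl⟩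
  have hBd1 : Bd.card ≤ 2 * (J ^ sm.length * B.card) := by
    rw [hBd]
    have h1 := Finset.card_union_le C (C.image (fun w => -w))
    have h2 : (C.image (fun w => -w)).card ≤ C.card := Finset.card_image_le
    omega
  have hJk : J ^ sm.length ≤ J ^ k := Nat.pow_le_pow_right hJ (by omega)
  have hBd2 : p * Bd.card ≤ 2 * J ^ k * 2 ^ (10 * k * 2 ^ k) * m.totient * (Sv q lg).card := by
    calc p * Bd.card ≤ p * (2 * (J ^ sm.length * B.card)) := Nat.mul_le_mul_left _ hBd1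
      _ = 2 * J ^ sm.length * (p * B.card) := by ring
      _ ≤ 2 * J ^ k * ((Sv q lg).card * (2 ^ (10 * k * 2 ^ k) * m.totient)) :=
        Nat.mul_le_mul (Nat.mul_le_mul_left _ hJk) hB2
      _ = _ := by ring
  have hBd3 : 64 * Bd.card ≤ (Un q).card * (Sv q lg).card := by
    refine Nat.le_of_mul_le_mul_left ?_ hp0
    calc p * (64 * Bd.card) = 64 * (p * Bd.card) := by ring
      _ ≤ 64 * (2 * J ^ k * 2 ^ (10 * k * 2 ^ k) * m.totient * (Sv q lg).card) :=
        Nat.mul_le_mul_left _ hBd2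
      _ = (128 * J ^ k * 2 ^ (10 * k * 2 ^ k)) * (m.totient * (Sv q lg).card) := by ring
      _ ≤ p * (m.totient * (Sv q lg).card) := Nat.mul_le_mul_right _ hpp
      _ = p * ((Un q).card * (Sv q lg).card) := by rw [hU]
  have hOm : ∀ b ∈ Un q, ∀ s ∈ Sv q lg, (∀ i ∈ lg, b i + s i ≠ 0) → Om sm lg (b, s) := by
    intro b hb s hs hR
    have h1 := (Finset.mem_filter.mp hb).2
    have h2 := (Finset.mem_filter.mp hs).2
    exact ⟨h1, fun i hi => (h2 i).2 (hdisj i hi), fun i hi => ⟨(h2 i).1 hi, hR i hi⟩⟩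
  have hOm' : ∀ b ∈ Un q, ∀ s ∈ Sv q lg, (∀ i ∈ lg, b i + s i ≠ 0) → Om sm lg (-b, -s) := by
    intro b hb s hs hR
    obtain ⟨h1, h2, h3⟩ := hOm b hb s hs hR
    refine ⟨fun i => neg_ne_zero.mpr (h1 i), fun i hi => ?_, fun i hi =>
      ⟨neg_ne_zero.mpr (h3 i hi).1, ?_⟩⟩
    · have := h2 i hi
      change -(s i) = 0
      rw [show s i = 0 from this, neg_zero]
    · have := (h3 i hi).2
      change -(b i) + -(s i) ≠ 0
      rw [← neg_add]
      exact neg_ne_zero.mpr this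
  have hZ : ∀ b ∈ Un q, ∀ s ∈ Sv q lg, (∀ i ∈ lg, b i + s i ≠ 0) → (b, s) ∉ Bd →
      Zr m g h α (ops [] lg) (b, s) ∧ Zr m g h α (ops [] lg) (-b, -s) := by
    intro b hb s hs hR hn
    constructor
    · by_contra hc
      exact hn (by rw [hBd]; exact Finset.mem_union_left _ ((hC _).mpr ⟨hOm b hb s hs hR, hc⟩))
    · by_contra hc
      refine hn ?_
      rw [hBd]
      refine Finset.mem_union_right _ (Finset.mem_image.mpr ⟨(-b, -s),
        (hC _).mpr ⟨hOm' b hb s hs hR, hc⟩, ?_⟩)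
      exact Prod.ext (neg_neg b) (neg_neg s)
  obtain ⟨x, hx⟩ := hCNT (Pt q) (Pt q) (Un q) (Sv q lg) (fun b s => ∀ i ∈ lg, b i + s i ≠ 0)
    (fun s => Gen m α lg s) Bd (fun b => ty g h (ev α b)) hUne hSne
    (by
      intro s hs S hS'
      have h1 := hu1 s hs S (fun b hb => ⟨(hS' b hb).1, by
        have := (hS' b hb).2
        push Not at this
        exact this⟩)
      have h2 : (4 : ℝ) * S.card ≤ (Un q).card := by
        calc (4 : ℝ) * S.card
            ≤ 4 * ((lg.map fun i => (1 : ℝ) / (q i - 1)).sum * (Un q).card) := by linarith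
          _ = (4 * (lg.map fun i => (1 : ℝ) / (q i - 1)).sum) * (Un q).card := by ring
          _ ≤ 1 * (Un q).card := mul_le_mul_of_nonneg_right hσ1 (Nat.cast_nonneg _)
          _ = _ := one_mul _
      exact_mod_cast h2)
    (by
      intro b hb S hS'
      have h1 := hu2 b hb S (fun s hs => ⟨(hS' s hs).1, by
        have := (hS' s hs).2
        push Not at this
        exact this⟩)
      have h2 : (4 : ℝ) * S.card ≤ (Sv q lg).card := by
        calc (4 : ℝ) * S.card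
            ≤ 4 * ((lg.map fun i => (1 : ℝ) / (q i - 1)).sum * (Sv q lg).card) := by linarith
          _ = (4 * (lg.map fun i => (1 : ℝ) / (q i - 1)).sum) * (Sv q lg).card := by ring
          _ ≤ 1 * (Sv q lg).card := mul_le_mul_of_nonneg_right hσ1 (Nat.cast_nonneg _)
          _ = _ := one_mul _
      exact_mod_cast h2)
    (by
      intro S hS'
      have h1 := hGEN ι q p m g h (ResidueField A) (residue A z) α hS lg hndl S hS'
      have h2 : (8 : ℝ) * S.card ≤ (Sv q lg).card := by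
        calc (8 : ℝ) * S.card
            ≤ 8 * (6 * 9 ^ (2 ^ lg.length) * (lg.map fun i => (1 : ℝ) / (q i - 1)).sum *
                (Sv q lg).card) := by linarith
          _ = (8 * (6 * 9 ^ (2 ^ lg.length) * (lg.map fun i => (1 : ℝ) / (q i - 1)).sum)) *
                (Sv q lg).card := by ring
          _ ≤ 1 * (Sv q lg).card := mul_le_mul_of_nonneg_right hσ2 (Nat.cast_nonneg _)
          _ = _ := one_mul _
      exact_mod_cast h2)
    hBd3
    (by
      intro s hs hg b hb b' hb' hR hR' hn hn'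
      obtain ⟨z1, z2⟩ := hZ b hb s hs hR hn
      obtain ⟨z3, z4⟩ := hZ b' hb' s hs hR' hn'
      have := hDIF ι q p m g h (ResidueField A) (residue A z) α hS lg hndl s b b' hg z1 z2 z3 z4
      exact congrArg Prod.fst this)
  refine ⟨x, ?_⟩
  have h1 := hx ((Un q).filter fun b => ty g h (ev α b) ≠ x) (fun b hb =>
    ⟨(Finset.mem_filter.mp hb).1, (Finset.mem_filter.mp hb).2⟩)
  refine Nat.le_of_mul_le_mul_right ?_ (Finset.card_pos.mpr hSne)
  calc p * ((Un q).filter fun b => ty g h (ev α b) ≠ x).card * (Sv q lg).card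
      = p * (((Un q).filter fun b => ty g h (ev α b) ≠ x).card * (Sv q lg).card) := by ring
    _ ≤ p * (2 * Bd.card) := Nat.mul_le_mul_left _ h1
    _ = 2 * (p * Bd.card) := by ring
    _ ≤ 2 * (2 * J ^ k * 2 ^ (10 * k * 2 ^ k) * m.totient * (Sv q lg).card) :=
      Nat.mul_le_mul_left _ hBd2
    _ = _ := by ring

end Pool.Agent.CYE.H20
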